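import Pool.Agent.H717.NL.Stmts2

/-!
# NL717 PROD2: divide and conquer product of 2 × 2 polynomial matrices (by helper603)
-/

set_option autoImplicit false

open Polynomial

namespace Pool.Agent.H603.NL

open Pool.Agent.H717.NL

/-- a polynomial of small degree is determined by its first coefficients -/
theorem toPoly_coeff {n : ℕ} (p : ℝ[X]) (hp : p.natDegree ≤ n) :
    toPoly (fun q : Fin (n + 1) => p.coeff q) = p := by
  unfold toPoly
  conv_rhs => rw [p.as_sum_range' (n + 1) (by omega)]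
  rw [Finset.sum_range]
  refine Finset.sum_congr rfl fun i _ => ?_
  rw [C_mul_X_pow_eq_monomial]

theorem natDegree_lin (M : Fin 2 → Fin 2 → Fin 2 → ℝ) (i j : Fin 2) : (linMat M i j).natDegree ≤ 1 := by
  unfold linMat
  rw [Matrix.of_apply]
  refine (natDegree_add_le _ _).trans (max_le ?_ ?_)
  · rw [natDegree_C]
    omega
  · exact (natDegree_C_mul_le _ _).trans natDegree_X_le

theorem natDegree_prod (l : List (Matrix (Fin 2) (Fin 2) ℝ[X])) (h : ∀ A ∈ l, ∀ i j, (A i j).natDegree ≤ 1) :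
    ∀ i j, (l.prod i j).natDegree ≤ l.length := by
  induction l with
  | nil =>
    intro i j
    rw [List.prod_nil, Matrix.one_apply]
    split_ifs <;> simp
  | cons A l ih =>
    intro i j
    have ih' := ih fun B hB => h B (List.mem_cons_of_mem _ hB)
    rw [List.prod_cons, Matrix.mul_apply, List.length_cons]
    refine natDegree_sum_le_of_forall_le _ _ fun k _ => ?_
    refine natDegree_mul_le.trans ?_
    have h1 := h A List.mem_cons_self i k
    have h2 := ih' k j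
    omega

theorem natDegree_P {n : ℕ} (M : Fin n → Fin 2 → Fin 2 → Fin 2 → ℝ) (i j : Fin 2) :
    ((List.ofFn fun a => linMat (M a)).prod i j).natDegree ≤ n := by
  have h := natDegree_prod (List.ofFn fun a => linMat (M a)) (fun A hA i j => by
    rw [List.mem_ofFn] at hA
    obtain ⟨a, rfl⟩ := hA
    exact natDegree_lin _ _ _) i j
  rwa [List.length_ofFn] at h

/-- the first half of the indices -/
def s1 (k : ℕ) (a : Fin (2 ^ k)) : Fin (2 ^ (k + 1)) := ⟨a, by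
  have := a.2
  rw [pow_succ]
  omega⟩

/-- the second half of the indices -/
def s2 (k : ℕ) (a : Fin (2 ^ k)) : Fin (2 ^ (k + 1)) := ⟨2 ^ k + a, by
  have := a.2
  rw [pow_succ]
  omega⟩

theorem prod_split (k : ℕ) (M : Fin (2 ^ (k + 1)) → Fin 2 → Fin 2 → Fin 2 → ℝ) :
    (List.ofFn fun a => linMat (M a)).prod =
      (List.ofFn fun a => linMat (M (s1 k a))).prod * (List.ofFn fun a => linMat (M (s2 k a))).prod := by
  have h : 2 ^ (k + 1) = 2 ^ k + 2 ^ k := by rw [pow_succ]; omega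
  rw [List.ofFn_congr h, List.ofFn_add, List.prod_append]
  rfl

/-- addition of vectors -/
theorem addVec (n : ℕ) : Cmp (fun p : (Fin n → ℝ) × (Fin n → ℝ) => fun q => p.1 q + p.2 q) (n * 1) :=
  Cmp.pi fun q => ((Cmp.fst.comp (Cmp.proj q)).add' (Cmp.snd.comp (Cmp.proj q))).mono (by omega)

/-- the product of two matrices of polynomials -/
theorem step (K : ℕ) (hK : ∀ k m l q : ℕ, m ≤ 2 ^ k → l ≤ 2 ^ k → q ≤ 2 ^ (k + 1) →
    Cmp (fun p : (Fin m → ℝ) × (Fin l → ℝ) => fun i : Fin q => (toPoly p.1 * toPoly p.2).coeff i)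
      (K * 2 ^ k * (k + 1) ^ 2)) (k : ℕ) :
    Cmp (fun p : (Fin 2 → Fin 2 → Fin (2 ^ k + 1) → ℝ) × (Fin 2 → Fin 2 → Fin (2 ^ k + 1) → ℝ) =>
      fun (i j : Fin 2) (q : Fin (2 ^ (k + 1) + 1)) =>
        (toPoly (p.1 i 0) * toPoly (p.2 0 j)).coeff q + (toPoly (p.1 i 1) * toPoly (p.2 1 j)).coeff q)
      (2 * (2 * (2 * (K * 2 ^ (k + 1) * (k + 1 + 1) ^ 2) + (2 ^ (k + 1) + 1)))) := by
  have hp : 1 ≤ 2 ^ k := Nat.one_le_two_pow
  have h1 : ∀ i j l : Fin 2, Cmp (fun p : (Fin 2 → Fin 2 → Fin (2 ^ k + 1) → ℝ) ×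
      (Fin 2 → Fin 2 → Fin (2 ^ k + 1) → ℝ) => fun q : Fin (2 ^ (k + 1) + 1) =>
        (toPoly (p.1 i l) * toPoly (p.2 l j)).coeff q) (K * 2 ^ (k + 1) * (k + 1 + 1) ^ 2) := by
    intro i j l
    have h2 := hK (k + 1) (2 ^ k + 1) (2 ^ k + 1) (2 ^ (k + 1) + 1) (by rw [pow_succ]; omega)
      (by rw [pow_succ]; omega) (by rw [pow_succ, pow_succ]; omega)
    have h3 : Cmp (fun p : (Fin 2 → Fin 2 → Fin (2 ^ k + 1) → ℝ) × (Fin 2 → Fin 2 → Fin (2 ^ k + 1) → ℝ) =>
        (p.1 i l, p.2 l j)) 0 :=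
      (((Cmp.fst.comp (Cmp.proj i)).comp (Cmp.proj l)).pair
        ((Cmp.snd.comp (Cmp.proj l)).comp (Cmp.proj j))).mono (by omega)
    exact h3.on h2
  apply Cmp.pi
  intro i
  apply Cmp.pi
  intro j
  exact (((h1 i j 0).pair (h1 i j 1)).comp (addVec (2 ^ (k + 1) + 1))).mono (by omega)

theorem t_prod2 (h : S_mul) : S_prod2 := by
  obtain ⟨K, hK⟩ := h
  refine ⟨8 * K + 8, fun k => ?_⟩
  induction k with
  | zero =>
    have h1 : Cmp (fun M : Fin (2 ^ 0) → Fin 2 → Fin 2 → Fin 2 → ℝ => M 0) 0 := Cmp.proj (0 : Fin (2 ^ 0))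
    refine (h1.mono (Nat.zero_le _)).congr fun M => ?_
    funext i j q
    have h2 : (List.ofFn fun a => linMat (M a)).prod = linMat (M 0) := by
      have : List.ofFn (fun a : Fin 1 => linMat (M a)) = [linMat (M 0)] := List.ofFn_succ.trans (by simp)
      exact (congrArg List.prod this).trans (by simp)
    rw [h2]
    unfold linMat
    rw [Matrix.of_apply]
    have hq : (q : ℕ) = 0 ∨ (q : ℕ) = 1 := by
      have := q.2
      omega
    rcases hq with hq | hq
    · have hq' : q = (0 : Fin 2) := Fin.ext hq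
      subst hq'
      simp
    · have hq' : q = (1 : Fin 2) := Fin.ext hq
      subst hq'
      simp
  | succ k ih =>
    have h1 : Cmp (fun M : Fin (2 ^ (k + 1)) → Fin 2 → Fin 2 → Fin 2 → ℝ => fun a => M (s1 k a)) 0 :=
      Cmp.reindex (s1 k)
    have h2 : Cmp (fun M : Fin (2 ^ (k + 1)) → Fin 2 → Fin 2 → Fin 2 → ℝ => fun a => M (s2 k a)) 0 :=
      Cmp.reindex (s2 k)
    have h3 := ((h1.on ih).pair (h2.on ih)).comp (step K hK k)
    refine (h3.mono ?_).congr fun M => ?_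
    · have hp : 1 ≤ 2 ^ k := Nat.one_le_two_pow
      have e : (2 : ℕ) ^ (k + 1) = 2 * 2 ^ k := by rw [pow_succ]; ring
      rw [e]
      have h5 : (8 * K + 8) * (2 * 2 ^ k) * (k + 1 + 1) ^ 3 =
          2 * ((8 * K + 8) * 2 ^ k * (k + 1) ^ 3) + (8 * K + 8) * (2 * 2 ^ k) * (3 * k ^ 2 + 9 * k + 7) := by
        ring
      have h6 : (8 * K + 8) * (2 * 2 ^ k) * ((k + 1 + 1) ^ 2 + 1) ≤
          (8 * K + 8) * (2 * 2 ^ k) * (3 * k ^ 2 + 9 * k + 7) :=
        Nat.mul_le_mul_left _ (by nlinarith)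
      have h7 : (8 * K + 8) * (2 * 2 ^ k) * ((k + 1 + 1) ^ 2 + 1) =
          8 * (K * (2 * 2 ^ k) * (k + 1 + 1) ^ 2) + 8 * (2 * 2 ^ k) + 8 * (2 * 2 ^ k) * (k + 1 + 1) ^ 2 +
            8 * K * (2 * 2 ^ k) := by
        ring
      have h8 : 0 ≤ 8 * (2 * 2 ^ k) * (k + 1 + 1) ^ 2 := Nat.zero_le _
      have h9 : 0 ≤ 8 * K * (2 * 2 ^ k) := Nat.zero_le _
      omega
    · funext i j q
      rw [prod_split, Matrix.mul_apply, Fin.sum_univ_two, coeff_add]
      simp only [toPoly_coeff _ (natDegree_P _ _ _)]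

end Pool.Agent.H603.NL
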